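import Pool.Agent.W606.PS.Fin
import Pool.Agent.Y442.PS.Blow

/-!
# Planar graphs in the strong product of a graph of treewidth three, a short path and `K_36`

Let `G` be a finite graph that can be drawn in the plane and let `k ≥ 1` be such that
`tw(G) ≤ k - 1` or `|V(G)| ≤ k ^ 2`. Then `G` is contained in `H ⊠ P ⊠ K_36` for a graph `H` of
treewidth at most `3` and the path `P` with `2 k + 1` vertices, and in `H' ⊠ P` for a graph `H'`
(namely `H ⊠ K_36`) of treewidth at most `143`.

With `k = tw(G) + 1` this answers Q1 of the problem (`f(t) = 2 t + 3`), with `k = ⌈√|V(G)|⌉` it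
answers Q2. The starting results `PathFactorLinearInTreewidth` and `FactorOrderSqrt` show that
there are some constants for Q1 and for Q2. The proof uses the library of these results
(`Pool.Agent.W606.PS`); new is the reduction of the bounded treewidth factor to treewidth `3` by
separating a complete factor (`Pool.Agent.Y442.PS.Blow`), and the explicit constants.
-/

set_option autoImplicit false

namespace Pool.Agent.Results.MP_9863c1_co.TreewidthThreeFactor

/-- `G` can be drawn in the plane: distinct points for the vertices, a simple arc for every edge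
between its two ends, meeting no other vertex, and two different edges meet only in a common end. -/
def PlaneDrawable {V : Type} (G : SimpleGraph V) : Prop :=
  ∃ (f : V → ℂ) (γ : ∀ u v : V, G.Adj u v → Path (f u) (f v)),
    Function.Injective f ∧
    (∀ (u v : V) (h : G.Adj u v), Function.Injective ⇑(γ u v h)) ∧
    (∀ (u v : V) (h : G.Adj u v) (s : unitInterval) (w : V),
      γ u v h s = f w → w = u ∨ w = v) ∧
    (∀ (u v x y : V) (h : G.Adj u v) (h' : G.Adj x y) (s t : unitInterval),
      γ u v h s = γ x y h' t → s(u, v) ≠ s(x, y) →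
        ∃ w : V, (w = u ∨ w = v) ∧ (w = x ∨ w = y) ∧ γ u v h s = f w)

/-- `G` has a tree decomposition with all bags of size at most `w`, that is, treewidth at most
`w - 1`. -/
def BagsLE {V : Type} (G : SimpleGraph V) (w : ℕ) : Prop :=
  ∃ (m : ℕ) (T : SimpleGraph (Fin m)) (B : Fin m → Finset V),
    T.IsTree ∧ (∀ u v, G.Adj u v → ∃ t, u ∈ B t ∧ v ∈ B t) ∧
    (∀ v, (T.induce {t | v ∈ B t}).Connected) ∧ ∀ t, (B t).card ≤ w

/-- the strong product of two graphs. -/
def StrongProd {A B : Type} (H : SimpleGraph A) (P : SimpleGraph B) : SimpleGraph (A × B) where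
  Adj p q := p ≠ q ∧ (p.1 = q.1 ∨ H.Adj p.1 q.1) ∧ (p.2 = q.2 ∨ P.Adj p.2 q.2)
  symm := ⟨fun _ _ h => ⟨h.1.symm, h.2.1.imp Eq.symm fun e => e.symm,
    h.2.2.imp Eq.symm fun e => e.symm⟩⟩
  loopless := ⟨fun _ h => h.1 rfl⟩

/-- Every finite plane drawable graph `G` with `tw(G) ≤ k - 1` or `|V(G)| ≤ k ^ 2`, `k ≥ 1`, is
isomorphic to a subgraph of `(H ⊠ P) ⊠ K_36` with `tw(H) ≤ 3`, and to a subgraph of `H' ⊠ P` with
`tw(H') ≤ 143`, where `P` is the path with `2 k + 1` vertices. -/
theorem result (V : Type) [Fintype V] (G : SimpleGraph V) (hG : PlaneDrawable G) (k : ℕ)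
    (hk : 1 ≤ k) (h : BagsLE G k ∨ Fintype.card V ≤ k ^ 2) :
    (∃ (a : ℕ) (H : SimpleGraph (Fin a)), BagsLE H 4 ∧
      ∃ φ : G →g StrongProd (StrongProd H (SimpleGraph.pathGraph (2 * k + 1)))
        (⊤ : SimpleGraph (Fin 36)), Function.Injective φ) ∧
    ∃ (a : ℕ) (H : SimpleGraph (Fin a)), BagsLE H 144 ∧
      ∃ φ : G →g StrongProd H (SimpleGraph.pathGraph (2 * k + 1)), Function.Injective φ := by
  have hconv : ∀ {a b : ℕ} (H : SimpleGraph (Fin a)) (P : SimpleGraph (Fin b))
      (p q : Fin a × Fin b), (Pool.Agent.W606.PS.SP H P).Adj p q → (StrongProd H P).Adj p q := by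
    intro a b H P p q hpq
    simp only [Pool.Agent.W606.PS.SP, SimpleGraph.fromRel_adj] at hpq
    obtain ⟨hne, h1 | h1⟩ := hpq
    · exact ⟨hne, h1.1, h1.2⟩
    · exact ⟨hne, h1.1.imp Eq.symm fun e => e.symm, h1.2.imp Eq.symm fun e => e.symm⟩
  have h' : Pool.Agent.W606.PS.TD G k ∨ Fintype.card V ≤ k * k := by
    rcases h with h | h
    · exact Or.inl h
    · exact Or.inr (by rwa [pow_two] at h)
  have hout := Pool.Agent.W606.PS.Fin.finT V G hG k hk h'
  constructor
  · obtain ⟨a, H, hH, f, hf, hadj⟩ :=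
      Pool.Agent.Y442.PS.blow Pool.Agent.W606.PS.All.out G (2 * k) 36 hout
    refine ⟨a, H, hH, ⟨⟨f, ?_⟩, hf⟩⟩
    intro u v e
    refine ⟨fun he => e.ne (hf he), ?_, ?_⟩
    · rcases hadj u v e with h1 | h1
      · exact Or.inl h1
      · exact Or.inr (hconv _ _ _ _ h1)
    · by_cases h1 : (f u).2 = (f v).2
      · exact Or.inl h1
      · exact Or.inr h1
  · obtain ⟨a, H, hH, f, hf⟩ := Pool.Agent.W606.PS.All.out V G (2 * k) 36 hout
    exact ⟨a, H, hH, ⟨⟨f, fun {u v} e => hconv _ _ _ _ (f.map_adj e)⟩, hf⟩⟩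

end Pool.Agent.Results.MP_9863c1_co.TreewidthThreeFactor
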